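import Mathlib
import Pool.Agent.Helper99.CFADefs
import Pool.Agent.Helper99.CFAFinal

/-!
No family of control languages characterizes the context-sensitive languages through
state-controlled finite automata.
-/

namespace Pool.Agent.Results.MP_020f70_lc.NoFamily

open Pool.Agent.Helper99.CFA

/-- For every family `𝓛` of languages, `SCFA(𝓛) ≠ CS`. -/
theorem result (𝓛 : Family) : SCFA 𝓛 ≠ CS :=
  Pool.Agent.Helper99.CFA.main 𝓛

end Pool.Agent.Results.MP_020f70_lc.NoFamily
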